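import Pool.Agent.Helper12.TS.StB

/-!
# Project TS, MODULE APB: all neighbours of `s` are in the part of `t`, split off a piece
-/

set_option autoImplicit false

namespace Pool.Agent.Helper81.TS

open Pool.Agent.Helper12.TS
open Pool.Agent.Helper51.AJ (IsMinor Planar Apex ExMinor Con Tch)
open Pool.Agent.Helper12.NK (rst Kc add)

theorem hAPB : StCMP → StAPB := by
  classical
  intro hCMP V _ G S A s t ρ hKc hS hA hs ht hts hR hU hN
  obtain ⟨-, -, -, c4, -, c6, -⟩ := hCMP V G S
  obtain ⟨hAS, hAc, hAcl⟩ := hA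
  have hAnS : ∀ z ∈ A, z ∉ S := fun z hz hzS => Set.disjoint_left.1 hAS hz hzS
  have htT : t ∈ S \ {s} := ⟨ht, fun h => hts h⟩
  have htA : t ∉ A := fun h => hAnS t h ht
  have hsA : s ∉ A := fun h => hAnS s h hs
  have hρt : ρ t = t := hR.off t htA
  -- the vertex `x₀`
  obtain ⟨s', hs', x₀, hx₀A, hsx⟩ := c4 hKc hS A ⟨hAS, hAc, hAcl⟩ s hs
  obtain rfl : s' = s := hs'
  have hx₀t : ρ x₀ = t := hN x₀ hx₀A hsx
  -- the part of `t`
  set P : Set V := {z | ρ z = t} with hP
  have hPc : Con G P := by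
    have := hR.fib t
    rwa [hρt] at this
  have hPA : ∀ z ∈ P, z ≠ t → z ∈ A := by
    intro z hz hzt
    by_contra hzA
    exact hzt ((hR.off z hzA).symm.trans hz)
  have hx₀ne : x₀ ≠ t := fun h => htA (h ▸ hx₀A)
  -- the component
  obtain ⟨M, hM, hx₀M⟩ := (hCMP V G (P \ {t})ᶜ).1 x₀ (fun h => h ⟨hx₀t, hx₀ne⟩)
  obtain ⟨ht1, hPM⟩ := (hCMP V G S).2.2.2.2.2.2 P M t hPc hρt hM
  obtain ⟨hMd, hMc, hMcl⟩ := hM
  have hMP : ∀ z ∈ M, ρ z = t ∧ z ≠ t := by
    intro z hz
    have h1 : z ∉ (P \ {t})ᶜ := fun h => Set.disjoint_left.1 hMd hz h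
    have h2 : z ∈ P \ {t} := not_not.1 h1
    exact ⟨h2.1, fun h => h2.2 h⟩
  have hMA : ∀ z ∈ M, z ∈ A := fun z hz => hPA z (hMP z hz).1 (hMP z hz).2
  have htM : t ∉ M := fun h => (hMP t h).2 rfl
  have hMcl' : ∀ x ∈ M, ∀ z, ρ z = t → z ≠ t → G.Adj x z → z ∈ M := by
    intro x hx z hz hzt hxz
    exact hMcl x hx z (fun h => h ⟨hz, fun h' => hzt h'⟩) hxz
  -- values of `ρ` are not in `M`
  have hval : ∀ z, ρ z ∉ M := by
    intro z hz
    have h1 := (hMP _ hz).1
    rw [hR.idp] at h1
    exact (hMP _ hz).2 h1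
  -- the other element of `T`
  have hT2 : (S \ {s'}).ncard = 2 := by
    rw [Set.ncard_sdiff_singleton_of_mem hs, hS]
  obtain ⟨t', ht', hTeq⟩ : ∃ t', t' ≠ t ∧ S \ {s'} = {t, t'} := by
    obtain ⟨a, b, hab, he⟩ := Set.ncard_eq_two.1 hT2
    rw [he] at htT
    rcases htT with h | h
    · exact ⟨b, fun h' => hab (by rw [← h, ← h']), by rw [he, h]⟩
    · have h' : t = b := h
      exact ⟨a, fun h'' => hab (by rw [h'', h']), by rw [he, h', Set.pair_comm]⟩
  have ht'T : t' ∈ S \ {s'} := by
    rw [hTeq]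
    exact Or.inr rfl
  have hT : ∀ t₁ ∈ S \ {s'}, t₁ = t ∨ t₁ = t' := by
    intro t₁ h
    rw [hTeq] at h
    exact h
  have hTA : ∀ t₁ ∈ S \ {s'}, t₁ ∉ A := fun t₁ h h' => hAnS t₁ h' h.1
  -- the new retraction
  let ρ' : V → V := fun z => if z ∈ M then x₀ else ρ z
  have hin : ∀ z ∈ M, ρ' z = x₀ := fun z hz => if_pos hz
  have hout : ∀ z, z ∉ M → ρ' z = ρ z := fun z hz => if_neg hz
  have hZM : ∀ z ∈ Zz A ρ, z ∉ M := by
    intro z hz hzM
    apply htA
    rw [← (hMP z hzM).1]
    exact hz.2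
  have hZ1 : Zz A ρ ⊆ Zz A ρ' := by
    intro z hz
    refine ⟨hz.1, ?_⟩
    rw [hout z (hZM z hz)]
    exact hz.2
  have hZ2 : M ⊆ Zz A ρ' := by
    intro z hz
    refine ⟨hMA z hz, ?_⟩
    rw [hin z hz]
    exact hx₀A
  have hZ3 : ∀ z ∈ Zz A ρ', z ∈ M ∨ z ∈ Zz A ρ := by
    intro z hz
    by_cases hzM : z ∈ M
    · exact Or.inl hzM
    · refine Or.inr ⟨hz.1, ?_⟩
      rw [← hout z hzM]
      exact hz.2
  -- `M` touches the new part of `t`
  have htt : Tch G M {z | ρ' z = t} := by
    obtain ⟨a, ha, y, hy, hay⟩ := ht1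
    obtain rfl : a = t := ha
    exact ⟨y, hy, a, (hout a htM).trans hρt, hay.symm⟩
  have httT : Tch G M {z | ρ' z ∈ S \ {s'}} := by
    obtain ⟨y, hy, a, ha, hya⟩ := htt
    refine ⟨y, hy, a, ?_, hya⟩
    show ρ' a ∈ S \ {s'}
    rw [show ρ' a = t from ha]
    exact htT
  -- elements with `ρ b = t₁ ≠ t` are not in `M`
  have hnM : ∀ b, ρ b ≠ t → b ∉ M := fun b hb hbM => hb (hMP b hbM).1
  refine ⟨ρ', ⟨?_, ?_, ?_, ?_⟩, ⟨?_, ?_⟩, ?_, ?_, x₀, hZ2 hx₀M, hsx⟩
  · -- off
    intro x hx
    rw [hout x (fun h => hx (hMA x h))]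
    exact hR.off x hx
  · -- inn
    intro x hx
    by_cases hxM : x ∈ M
    · rw [hin x hxM]
      exact Or.inl hx₀A
    · rw [hout x hxM]
      exact hR.inn x hx
  · -- idp
    intro x
    by_cases hxM : x ∈ M
    · rw [hin x hxM, hin x₀ hx₀M]
    · rw [hout x hxM, hout _ (hval x), hR.idp]
  · -- fib
    intro x
    by_cases hxM : x ∈ M
    · have he : {z | ρ' z = ρ' x} = M := by
        rw [hin x hxM]
        ext z
        constructor
        · intro hz
          by_contra hzM
          have h1 : ρ' z = x₀ := hz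
          rw [hout z hzM] at h1
          exact hval z (h1 ▸ hx₀M)
        · intro hz
          exact hin z hz
      rw [he]
      exact hMc
    · rw [hout x hxM]
      by_cases hxt : ρ x = t
      · have he : {z | ρ' z = ρ x} = P \ M := by
          ext z
          constructor
          · intro hz
            have h1 : ρ' z = ρ x := hz
            by_cases hzM : z ∈ M
            · rw [hin z hzM] at h1
              exact absurd (h1 ▸ hx₀M) (hval x)
            · rw [hout z hzM] at h1
              exact ⟨h1.trans hxt, hzM⟩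
          · rintro ⟨hz, hzM⟩
            show ρ' z = ρ x
            rw [hout z hzM, hxt]
            exact hz
        rw [he]
        exact hPM
      · have he : {z | ρ' z = ρ x} = {z | ρ z = ρ x} := by
          ext z
          constructor
          · intro hz
            have h1 : ρ' z = ρ x := hz
            by_cases hzM : z ∈ M
            · rw [hin z hzM] at h1
              exact absurd (h1 ▸ hx₀M) (hval x)
            · rw [hout z hzM] at h1
              exact h1
          · intro hz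
            have h1 : ρ z = ρ x := hz
            show ρ' z = ρ x
            rw [hout z (hnM z (by rw [h1]; exact hxt))]
            exact h1
        rw [he]
        exact hR.fib x
  · -- first part of `Uu`
    intro x hx t₁ ht₁
    rcases hZ3 x hx with hxM | hxZ
    · rcases hT t₁ ht₁ with rfl | rfl
      · exact ⟨M, hZ2, hMc, hxM, htt⟩
      · -- the edge of (a)
        obtain ⟨y, hy, z, hzM, hzt, hzs, hyz⟩ := c6 hKc hS M
          (Set.disjoint_left.2 fun z hz => hAnS z (hMA z hz)) ⟨x₀, hx₀M⟩ t s' htM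
          (fun h => hsA (hMA _ h))
        have hzP : ρ z ≠ t := fun h => hzM (hMcl' y hy z h hzt hyz)
        have hcase : z ∈ Zz A ρ ∨ ρ z = t₁ := by
          by_cases hzA : z ∈ A
          · rcases hR.inn z hzA with h | h
            · exact Or.inl ⟨hzA, h⟩
            · rcases hT _ h with h' | h'
              · exact absurd h' hzP
              · exact Or.inr h'
          · have hzS : z ∈ S := by
              by_contra hzS
              exact hzA (hAcl y (hMA y hy) z hzS hyz)
            have h1 : ρ z = z := hR.off z hzA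
            rcases hT z ⟨hzS, hzs⟩ with h' | h'
            · exact absurd h' hzt
            · exact Or.inr (h1.trans h')
        rcases hcase with hzZ | hzt'
        · obtain ⟨Z₁, h1, h2, h3, a, ha, b, hb, hab⟩ := hU.1 z hzZ t₁ ht₁
          refine ⟨M ∪ Z₁, Set.union_subset hZ2 (h1.trans hZ1),
            Pool.Agent.Helper51.AJ.con_union hMc h2 ⟨y, hy, z, h3, hyz⟩, Or.inl hxM,
            a, Or.inr ha, b, ?_, hab⟩
          show ρ' b = t₁
          have hb' : ρ b = t₁ := hb
          rw [hout b (hnM b (by rw [hb']; exact ht'))]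
          exact hb'
        · exact ⟨M, hZ2, hMc, hxM, y, hy, z, (hout z hzM).trans hzt', hyz⟩
    · obtain ⟨Z, h1, h2, h3, a, ha, b, hb, hab⟩ := hU.1 x hxZ t₁ ht₁
      have hb' : ρ b = t₁ := hb
      by_cases hbM : b ∈ M
      · have ht₁' : t₁ = t := hb'.symm.trans (hMP b hbM).1
        subst ht₁'
        obtain ⟨y, hy, c, hc, hyc⟩ := htt
        exact ⟨Z ∪ M, Set.union_subset (h1.trans hZ1) hZ2,
          Pool.Agent.Helper51.AJ.con_union h2 hMc ⟨a, ha, b, hbM, hab⟩, Or.inl h3,
          y, Or.inr hy, c, hc, hyc⟩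
      · exact ⟨Z, h1.trans hZ1, h2, h3, a, ha, b, (hout b hbM).trans hb', hab⟩
  · -- second part of `Uu`
    intro r x hx hxr
    rcases hZ3 x hx with hxM | hxZ
    · rw [hin x hxM] at hxr
      refine ⟨M, ?_, hMc, hxM, httT⟩
      intro z hz
      refine ⟨hZ2 hz, ?_⟩
      intro h
      exact hxr ((hin z hz).symm.trans h)
    · have hxr' : ρ x ≠ r := by
        rwa [hout x (hZM x hxZ)] at hxr
      by_cases hr : r = x₀
      · subst hr
        obtain ⟨Z, h1, h2, h3, a, ha, b, hb, hab⟩ := hU.1 x hxZ t' ht'T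
        have hb' : ρ b = t' := hb
        refine ⟨Z, ?_, h2, h3, a, ha, b, ?_, hab⟩
        · intro z hz
          refine ⟨hZ1 (h1 hz), ?_⟩
          intro h
          have h4 : ρ' z = r := h
          rw [hout z (hZM z (h1 hz))] at h4
          exact hval z (h4 ▸ hx₀M)
        · show ρ' b ∈ S \ {s'}
          rw [hout b (hnM b (by rw [hb']; exact ht')), hb']
          exact ht'T
      · obtain ⟨Z, h1, h2, h3, a, ha, b, hb, hab⟩ := hU.2 r x hxZ hxr'
        have hZr : ∀ z ∈ Z, z ∈ Zz A ρ' \ {z | ρ' z = r} := by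
          intro z hz
          refine ⟨hZ1 (h1 hz).1, ?_⟩
          intro h
          have h4 : ρ' z = r := h
          rw [hout z (hZM z (h1 hz).1)] at h4
          exact (h1 hz).2 h4
        by_cases hbM : b ∈ M
        · obtain ⟨y, hy, c, hc, hyc⟩ := httT
          refine ⟨Z ∪ M, Set.union_subset hZr ?_,
            Pool.Agent.Helper51.AJ.con_union h2 hMc ⟨a, ha, b, hbM, hab⟩, Or.inl h3,
            y, Or.inr hy, c, hc, hyc⟩
          intro z hz
          refine ⟨hZ2 hz, ?_⟩
          intro h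
          exact hr ((show ρ' z = r from h).symm.trans (hin z hz))
        · refine ⟨Z, hZr, h2, h3, a, ha, b, ?_, hab⟩
          show ρ' b ∈ S \ {s'}
          rw [hout b hbM]
          exact hb
  · -- refinement
    intro x y hxy
    by_cases hxM : x ∈ M
    · by_cases hyM : y ∈ M
      · rw [(hMP x hxM).1, (hMP y hyM).1]
      · rw [hin x hxM, hout y hyM] at hxy
        exact absurd (hxy ▸ hx₀M) (hval y)
    · by_cases hyM : y ∈ M
      · rw [hout x hxM, hin y hyM] at hxy
        exact absurd (hxy ▸ hx₀M) (hval x)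
      · rw [hout x hxM, hout y hyM] at hxy
        exact hxy
  · -- the number of classes
    have hsub : Rr A ρ' ⊆ insert x₀ (Rr A ρ) := by
      rintro r ⟨hrA, hr⟩
      by_cases hrM : r ∈ M
      · left
        rw [← hr]
        exact hin r hrM
      · right
        exact ⟨hrA, by rw [← hout r hrM]; exact hr⟩
    exact (Set.ncard_le_ncard hsub (Set.toFinite _)).trans (Set.ncard_insert_le _ _)

end Pool.Agent.Helper81.TS
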