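import Pool.Agent.Helper12.TS.St
import Pool.Agent.Helper41.AJ.M_CON

/-!
# Project TS, MODULE RSM: restriction of a model to `C ∪ S`
-/

set_option autoImplicit false

namespace Pool.Agent.Helper81.TS

open Pool.Agent.Helper12.TS
open Pool.Agent.Helper51.AJ (IsMinor Planar Apex ExMinor Con Tch)
open Pool.Agent.Helper12.NK (rst Kc add)

private lemma con_of_tch {V : Type} (G : SimpleGraph V) (T : Set V) (h0 : T.Nonempty)
    (h : ∀ X : Set V, X ⊆ T → X.Nonempty → X ≠ T → Tch G X (T \ X)) : Con G T := by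
  obtain ⟨x₀, hx₀⟩ := h0
  have key : ∀ y (hy : y ∈ T), (G.induce T).Reachable ⟨x₀, hx₀⟩ ⟨y, hy⟩ := by
    let X : Set V := {y | ∃ hy : y ∈ T, (G.induce T).Reachable ⟨x₀, hx₀⟩ ⟨y, hy⟩}
    by_contra hcon
    push Not at hcon
    obtain ⟨y, hy, hny⟩ := hcon
    have hXT : X ⊆ T := fun z hz => hz.1
    have hXne : X.Nonempty := ⟨x₀, hx₀, SimpleGraph.Reachable.refl _⟩
    have hX : X ≠ T := by
      intro he
      have : y ∈ X := he ▸ hy
      exact hny this.2
    obtain ⟨a, ⟨haT, ha⟩, b, ⟨hbT, hb⟩, hab⟩ := h X hXT hXne hX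
    refine hb ⟨hbT, ha.trans ?_⟩
    exact SimpleGraph.Adj.reachable (show (G.induce T).Adj ⟨a, haT⟩ ⟨b, hbT⟩ from hab)
  have : Nonempty T := ⟨⟨x₀, hx₀⟩⟩
  refine ⟨fun a b => ?_⟩
  exact (key a.1 a.2).symm.trans (key b.1 b.2)

theorem hRSM : StRSM := by
  intro V ι _ Γ H φ C S hMd hCS hcl hφ
  obtain ⟨hcon, hdis, htch⟩ := hMd
  have hadjS : ∀ s ∈ S, ∀ t ∈ S, s ≠ t → (rst H (C ∪ S) ⊔ cl S).Adj s t := by
    intro s hs t ht hst
    exact Or.inr ⟨hst, hs, ht⟩
  have hadjH : ∀ a b, a ∈ C ∪ S → b ∈ C ∪ S → H.Adj a b → (rst H (C ∪ S) ⊔ cl S).Adj a b := by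
    intro a b ha hb hab
    exact Or.inl ⟨hab, ha, hb⟩
  refine ⟨?_, ?_, ?_⟩
  · intro w
    have hc := hcon w
    have hne : (φ w).Nonempty := Pool.Agent.Helper51.AJ.con_nonempty hc
    have hC1 := (Pool.Agent.Helper41.AJ.hCON V H (φ w) hc).1
    rcases hφ w with hw | hw
    · -- the branch set lies in `C`
      have he : φ w ∩ (C ∪ S) = φ w :=
        Set.inter_eq_left.2 (hw.trans Set.subset_union_left)
      show Con _ (φ w ∩ (C ∪ S))
      rw [he]
      refine con_of_tch _ _ hne fun X hX hX0 hX1 => ?_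
      obtain ⟨a, ha, b, hb, hab⟩ := hC1 X hX hX0 hX1
      exact ⟨a, ha, b, hb, hadjH a b (Or.inl (hw (hX ha))) (Or.inl (hw hb.1)) hab⟩
    · obtain ⟨s₀, hs₀, hs₀S⟩ := hw
      show Con _ (φ w ∩ (C ∪ S))
      -- a part without elements of `S` is left by an edge
      have hpart : ∀ Z : Set V, Z ⊆ φ w ∩ (C ∪ S) → Z.Nonempty → (∀ z ∈ Z, z ∉ S) →
          Tch (rst H (C ∪ S) ⊔ cl S) Z ((φ w ∩ (C ∪ S)) \ Z) := by
        intro Z hZ hZ0 hZS
        have hZne : Z ≠ φ w := by
          intro he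
          exact hZS s₀ (he ▸ hs₀) hs₀S
        obtain ⟨a, ha, b, hb, hab⟩ := hC1 Z (hZ.trans Set.inter_subset_left) hZ0 hZne
        have haC : a ∈ C := by
          rcases (hZ ha).2 with h | h
          · exact h
          · exact absurd h (hZS a ha)
        have hbCS : b ∈ C ∪ S := by
          by_cases hbS : b ∈ S
          · exact Or.inr hbS
          · exact Or.inl (hcl a haC b hbS hab)
        exact ⟨a, ha, b, ⟨⟨hb.1, hbCS⟩, hb.2⟩, hadjH a b (Or.inl haC) hbCS hab⟩
      refine con_of_tch _ _ ⟨s₀, hs₀, Or.inr hs₀S⟩ fun X hX hX0 hX1 => ?_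
      by_cases h1 : ∃ s ∈ X, s ∈ S
      · obtain ⟨s, hsX, hsS⟩ := h1
        by_cases h2 : ∃ t ∈ (φ w ∩ (C ∪ S)) \ X, t ∈ S
        · obtain ⟨t, htX, htS⟩ := h2
          refine ⟨s, hsX, t, htX, hadjS s hsS t htS ?_⟩
          intro he
          exact htX.2 (he ▸ hsX)
        · push Not at h2
          have hY0 : ((φ w ∩ (C ∪ S)) \ X).Nonempty := by
            rw [Set.nonempty_iff_ne_empty]
            intro he
            apply hX1
            exact Set.Subset.antisymm hX (Set.diff_eq_empty.1 he)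
          obtain ⟨a, ha, b, hb, hab⟩ := hpart _ Set.diff_subset hY0 h2
          refine ⟨b, ?_, a, ha, hab.symm⟩
          by_contra hbX
          exact hb.2 ⟨hb.1, hbX⟩
      · push Not at h1
        exact hpart X hX hX0 h1
  · intro w w' hww
    exact (hdis w w' hww).mono Set.inter_subset_left Set.inter_subset_left
  · intro w w' hadj
    obtain ⟨x, hx, y, hy, hxy⟩ := htch w w' hadj
    by_cases hxC : x ∈ C ∪ S
    · by_cases hyC : y ∈ C ∪ S
      · exact ⟨x, ⟨hx, hxC⟩, y, ⟨hy, hyC⟩, hadjH x y hxC hyC hxy⟩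
      · -- `y` outside, so `x` is not in `C`
        have hxC' : x ∉ C := fun h => hyC (Or.inl (hcl x h y (fun h' => hyC (Or.inr h')) hxy))
        have h1 : (φ w ∩ S).Nonempty := by
          rcases hφ w with h | h
          · exact absurd (h hx) hxC'
          · exact h
        have h2 : (φ w' ∩ S).Nonempty := by
          rcases hφ w' with h | h
          · exact absurd (Or.inl (h hy)) hyC
          · exact h
        obtain ⟨s, hs, hsS⟩ := h1
        obtain ⟨t, ht, htS⟩ := h2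
        refine ⟨s, ⟨hs, Or.inr hsS⟩, t, ⟨ht, Or.inr htS⟩, hadjS s hsS t htS ?_⟩
        intro he
        exact Set.disjoint_left.1 (hdis w w' hadj.ne) hs (he ▸ ht)
    · have hyC' : y ∉ C := fun h => hxC (Or.inl (hcl y h x (fun h' => hxC (Or.inr h')) hxy.symm))
      have h1 : (φ w ∩ S).Nonempty := by
        rcases hφ w with h | h
        · exact absurd (Or.inl (h hx)) hxC
        · exact h
      have h2 : (φ w' ∩ S).Nonempty := by
        rcases hφ w' with h | h
        · exact absurd (h hy) hyC'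
        · exact h
      obtain ⟨s, hs, hsS⟩ := h1
      obtain ⟨t, ht, htS⟩ := h2
      refine ⟨s, ⟨hs, Or.inr hsS⟩, t, ⟨ht, Or.inr htS⟩, hadjS s hsS t htS ?_⟩
      intro he
      exact Set.disjoint_left.1 (hdis w w' hadj.ne) hs (he ▸ ht)

end Pool.Agent.Helper81.TS
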